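import Pool.Agent.LPK.Stmts

/-!
# LPK, row FTP: transform of an even polynomial
-/

set_option autoImplicit false

noncomputable section

open MeasureTheory Filter Topology
open scoped RealInnerProductSpace

namespace Pool.Agent.LPK.H25

theorem e3_cons (t : ℤ × ℕ × ℕ × ℕ) (l : P3) (A B H : ℝ) :
    e3 (t :: l) A B H = (t.1 : ℝ) * A ^ t.2.1 * B ^ t.2.2.1 * H ^ t.2.2.2 + e3 l A B H := by
  simp [e3]

theorem e3_cont {n : ℕ} (y : V n) : ∀ p : P3,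
    Continuous fun x : V n => e3 p (‖x‖ ^ 2) (‖y‖ ^ 2) ⟪x, y⟫
  | [] => by
    have : (fun x : V n => e3 [] (‖x‖ ^ 2) (‖y‖ ^ 2) ⟪x, y⟫) = fun _ => (0 : ℝ) := by
      funext x
      simp [e3]
    rw [this]
    exact continuous_const
  | t :: l => by
    have : (fun x : V n => e3 (t :: l) (‖x‖ ^ 2) (‖y‖ ^ 2) ⟪x, y⟫) =
        fun x : V n => (t.1 : ℝ) * (‖x‖ ^ 2) ^ t.2.1 * (‖y‖ ^ 2) ^ t.2.2.1 * ⟪x, y⟫ ^ t.2.2.2 +
          e3 l (‖x‖ ^ 2) (‖y‖ ^ 2) ⟪x, y⟫ := by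
      funext x
      rw [e3_cons]
    rw [this]
    have h1 := e3_cont y l
    have h2 : Continuous fun x : V n => ⟪x, y⟫ := continuous_id.inner continuous_const
    have h3 : Continuous fun x : V n => ‖x‖ ^ 2 := continuous_norm.pow 2
    exact ((((continuous_const.mul (h3.pow _)).mul continuous_const).mul (h2.pow _))).add h1

theorem integ (h2 : BddStmt) (h3 : JddStmt) {n : ℕ} (y w : V n) (p : P3) :
    Integrable fun x : V n => e3 p (‖x‖ ^ 2) (‖y‖ ^ 2) ⟪x, y⟫ * G x * Real.cos ⟪x, w⟫ := by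
  obtain ⟨C, m, hC, h⟩ := h2 p
  have hc : Continuous fun x : V n => e3 p (‖x‖ ^ 2) (‖y‖ ^ 2) ⟪x, y⟫ * Real.cos ⟪x, w⟫ :=
    (e3_cont y p).mul (Real.continuous_cos.comp (continuous_id.inner continuous_const))
  have hb : ∀ x : V n, |e3 p (‖x‖ ^ 2) (‖y‖ ^ 2) ⟪x, y⟫ * Real.cos ⟪x, w⟫| ≤
      (C * (1 + ‖y‖ ^ 2) ^ m) * (1 + ‖x‖ ^ 2) ^ m := by
    intro x
    rw [abs_mul]
    have h4 := h n x y
    have h5 : |Real.cos ⟪x, w⟫| ≤ 1 := Real.abs_cos_le_one _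
    calc _ ≤ |e3 p (‖x‖ ^ 2) (‖y‖ ^ 2) ⟪x, y⟫| * 1 :=
          mul_le_mul_of_nonneg_left h5 (abs_nonneg _)
      _ ≤ C * (1 + ‖x‖ ^ 2) ^ m * (1 + ‖y‖ ^ 2) ^ m := by rw [mul_one]; exact h4
      _ = _ := by ring
  refine ((h3 n _ _ m hc hb).1).congr (ae_of_all _ fun x => ?_)
  show e3 p (‖x‖ ^ 2) (‖y‖ ^ 2) ⟪x, y⟫ * Real.cos ⟪x, w⟫ * G x = _
  ring

theorem ftp (h1 : EvaStmt) (h2 : BddStmt) (h3 : JddStmt) (h4 : FtmStmt) : FtpStmt := by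
  intro n p
  induction p with
  | nil =>
    intro _ y w
    simp [e3, T3]
  | cons t l ih =>
    intro hE y w
    have hEl : Ev l := fun s hs => hE s (List.mem_cons_of_mem _ hs)
    have hT : T3 n (t :: l) = sc t.1 (tm n t.2.1 t.2.2.1 (t.2.2.2 / 2)) ++ T3 n l := by
      simp [T3]
    rw [hT, h1.1, h1.2.1, add_mul, mul_add, ← ih hEl y w]
    have hF : ∀ x : V n, e3 (t :: l) (‖x‖ ^ 2) (‖y‖ ^ 2) ⟪x, y⟫ * G x * Real.cos ⟪x, w⟫ =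
        (t.1 : ℝ) * ((‖x‖ ^ 2) ^ t.2.1 * (‖y‖ ^ 2) ^ t.2.2.1 * ⟪x, y⟫ ^ (2 * (t.2.2.2 / 2)) * G x *
          Real.cos ⟪x, w⟫) + e3 l (‖x‖ ^ 2) (‖y‖ ^ 2) ⟪x, y⟫ * G x * Real.cos ⟪x, w⟫ := by
      intro x
      rw [e3_cons]
      by_cases h0 : t.1 = 0
      · rw [h0]
        simp
      · have h5 : 2 * (t.2.2.2 / 2) = t.2.2.2 := by
          have := hE t List.mem_cons_self h0
          omega
        rw [h5]
        ring
    have hI : Integrable fun x : V n => (t.1 : ℝ) * ((‖x‖ ^ 2) ^ t.2.1 * (‖y‖ ^ 2) ^ t.2.2.1 *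
        ⟪x, y⟫ ^ (2 * (t.2.2.2 / 2)) * G x * Real.cos ⟪x, w⟫) := by
      refine (integ h2 h3 y w [(t.1, t.2.1, t.2.2.1, 2 * (t.2.2.2 / 2))]).congr
        (ae_of_all _ fun x => ?_)
      show e3 [(t.1, t.2.1, t.2.2.1, 2 * (t.2.2.2 / 2))] (‖x‖ ^ 2) (‖y‖ ^ 2) ⟪x, y⟫ * G x *
        Real.cos ⟪x, w⟫ = _
      rw [e3_cons]
      simp only [e3, List.map_nil, List.sum_nil]
      ring
    rw [integral_congr_ae (ae_of_all _ hF), integral_add hI (integ h2 h3 y w l),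
      integral_const_mul, h4]
    ring

end Pool.Agent.LPK.H25
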